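import Mathlib
import Pool.Agent.Helper993.HeisDet
import Pool.Agent.Helper993.FKDef
import Pool.Agent.Y692.FK.Lim

/-!
# MP_0078c6_gt: no group with the integral Heisenberg group as a direct factor has property
(FK-approx)
-/

set_option autoImplicit false

open Pool.Agent.Helper993.FK Pool.Agent.Helper993.HeisDet Pool.Agent.Y692.FKI
  Pool.Agent.Y692.FKP Pool.Agent.Y226.FK
open Filter Topology

namespace Pool.Agent.Results.MP_0078c6_gt.DirectFactors

/-- The `1 × 1` matrix `1 + n t - n u t` over `ℚ[K × H₃(ℤ)]`, where `t = (1, (1, 0, 0))` and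
`u = (1, (0, 1, 0))`. -/
noncomputable def elem (K : Type) [Group K] (n : ℕ) :
    Matrix (Fin 1) (Fin 1) (MonoidAlgebra ℚ (K × Heis ℤ)) :=
  Matrix.of fun _ _ =>
    MonoidAlgebra.single 1 1 + MonoidAlgebra.single ((1, ⟨1, 0, 0⟩) : K × Heis ℤ) (n : ℚ)
      - MonoidAlgebra.single ((1, ⟨0, 1, 0⟩) * (1, ⟨1, 0, 0⟩) : K × Heis ℤ) (n : ℚ)

theorem mapDomain_sub' {A B : Type} (f : A → B) (a b : MonoidAlgebra ℚ A) :
    MonoidAlgebra.mapDomain f (a - b) =
      MonoidAlgebra.mapDomain f a - MonoidAlgebra.mapDomain f b := by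
  rw [eq_sub_iff_add_eq, ← MonoidAlgebra.mapDomain_add, sub_add_cancel]

theorem elem_eq (K : Type) [Group K] (n : ℕ) :
    elem K n =
      (Pool.Agent.Y692.FKP.mt n).map (MonoidAlgebra.mapDomain (MonoidHom.inr K (Heis ℤ))) := by
  ext1 i j
  simp only [elem, Pool.Agent.Y692.FKP.mt, Matrix.map_apply, Matrix.of_apply, elt,
    MonoidAlgebra.mapDomain_add, mapDomain_sub', MonoidAlgebra.mapDomain_single, map_one, map_mul]
  rfl

/-- Let `K` be any group, `G = K × H₃(ℤ)`. Then `G` does not have property (FK-approx), and this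
happens along every normal chain `(M i)` of `K` and for every limit one likes. -/
theorem result (K : Type) [Group K] :
    ¬ FKApprox (K × Heis ℤ) ∧
    ∀ (M : ℕ → Subgroup K) [∀ i, (M i).Normal], M 0 = ⊤ → Antitone M → ⨅ i, M i = ⊥ →
      (∀ n : ℕ, 2 ≤ n → ∀ x : ℝ, 1 < x → x ≤ n →
        ∃ (C : ℕ → Subgroup (Heis ℤ)) (_ : ∀ i, (C i).Normal),
          (∀ i, (C i).FiniteIndex) ∧
          (M 0).prod (C 0) = ⊤ ∧ Antitone (fun i => (M i).prod (C i)) ∧
          ⨅ i, (M i).prod (C i) = ⊥ ∧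
          Tendsto (fun i => fkDet (rMul ((elem K n).map
            (MonoidAlgebra.mapDomain (QuotientGroup.mk' ((M i).prod (C i))))))) atTop (𝓝 x)) ∧
      ∃ (C : ℕ → Subgroup (Heis ℤ)) (_ : ∀ i, (C i).Normal),
          (∀ i, (C i).FiniteIndex) ∧
          (M 0).prod (C 0) = ⊤ ∧ Antitone (fun i => (M i).prod (C i)) ∧
          ⨅ i, (M i).prod (C i) = ⊥ ∧
          ¬ ∃ x : ℝ, Tendsto (fun i => fkDet (rMul ((elem K 10).map
            (MonoidAlgebra.mapDomain (QuotientGroup.mk' ((M i).prod (C i))))))) atTop (𝓝 x) := by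
  refine ⟨fun h => not_heis (FKApprox.factor h), ?_⟩
  intro M _ hM0 hM hM1
  refine ⟨?_, ?_⟩
  · intro n hn x hx1 hxn
    obtain ⟨s, hs⟩ := exists_limit hn hx1 hxn
    obtain ⟨c0, c1, c2⟩ := chain_prod hM0 hM hM1 (ch_zero s) (ch_anti s) (ch_inf s)
    refine ⟨ch s, fun i => inferInstance, fun i => ?_, c0, c1, c2, ?_⟩
    · exact Subgroup.finiteIndex_of_finite_quotient
    · simp only [elem_eq, fkDet_prod]
      exact hs
  · obtain ⟨c0, c1, c2⟩ := chain_prod hM0 hM hM1 chain_zero chain_anti chain_inf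
    refine ⟨chain, fun i => inferInstance, fun i => ?_, c0, c1, c2, ?_⟩
    · exact Subgroup.finiteIndex_of_finite_quotient
    · rintro ⟨x, hx⟩
      simp only [elem_eq, fkDet_prod] at hx
      exact no_limit_chain x hx

end Pool.Agent.Results.MP_0078c6_gt.DirectFactors
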